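import Mathlib
import Pool.Agent.Helper58.FX.Defs

set_option autoImplicit false
open MeasureTheory Filter Topology
open scoped InnerProductSpace ComplexConjugate ENNReal

/-! Project FX, piece FX-16: complex conjugation on `L²`. -/

namespace Helper78.FX
open Helper58.FX

variable {μ : Measure Tor}

lemma star_add_Lp (f g : Lp ℂ 2 μ) : star (f + g) = star f + star g := by
  apply Lp.ext
  filter_upwards [Lp.coeFn_star (f + g), Lp.coeFn_add f g, Lp.coeFn_add (star f) (star g),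
    Lp.coeFn_star f, Lp.coeFn_star g] with x h1 h2 h3 h4 h5
  rw [h1, Pi.star_apply, h2, h3, Pi.add_apply, Pi.add_apply, h4, h5, star_add]
  rfl

lemma star_smul_Lp (c : ℂ) (f : Lp ℂ 2 μ) : star (c • f) = conj c • star f := by
  apply Lp.ext
  filter_upwards [Lp.coeFn_star (c • f), Lp.coeFn_smul c f, Lp.coeFn_smul (conj c) (star f),
    Lp.coeFn_star f] with x h1 h2 h3 h4
  rw [h1, Pi.star_apply, h2, h3, Pi.smul_apply, Pi.smul_apply, h4, Pi.star_apply, smul_eq_mul,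
    smul_eq_mul, star_mul']
  rfl

lemma norm_star_Lp (f : Lp ℂ 2 μ) : ‖star f‖ = ‖f‖ := by
  rw [Lp.norm_def, Lp.norm_def]
  congr 1
  apply eLpNorm_congr_norm_ae
  filter_upwards [Lp.coeFn_star f] with x h1
  rw [h1, Pi.star_apply, norm_star]

/-- Conjugation as a semilinear isometry. -/
noncomputable def J (μ : Measure Tor) : Lp ℂ 2 μ →ₗᵢ⋆[ℂ] Lp ℂ 2 μ where
  toFun f := star f
  map_add' := star_add_Lp
  map_smul' := star_smul_Lp
  norm_map' := norm_star_Lp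

lemma J_apply (f : Lp ℂ 2 μ) : J μ f = star f := rfl

lemma J_J (f : Lp ℂ 2 μ) : J μ (J μ f) = f := star_star f

lemma J_UU {n : ℕ} (h : MeasurePreserving (T n) μ μ) (f : Lp ℂ 2 μ) :
    J μ (UU h f) = UU h (J μ f) := by
  apply Lp.ext
  have h0 : ∀ g : Lp ℂ 2 μ, (UU h g : Tor → ℂ) =ᵐ[μ] g ∘ T n := fun g =>
    Lp.coeFn_compMeasurePreserving g h
  have h4 : (star f : Lp ℂ 2 μ) ∘ T n =ᵐ[μ] (star (f : Tor → ℂ)) ∘ T n :=
    h.quasiMeasurePreserving.ae_eq_comp (Lp.coeFn_star f)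
  filter_upwards [Lp.coeFn_star (UU h f), h0 f, h0 (J μ f), h4] with x h1 h2 h3 h4
  rw [J_apply, h1, Pi.star_apply, h2, h3, J_apply, h4]
  rfl

lemma inner_J (f g : Lp ℂ 2 μ) : ⟪J μ f, J μ g⟫_ℂ = conj ⟪f, g⟫_ℂ := by
  rw [L2.inner_def, L2.inner_def, ← integral_conj]
  apply integral_congr_ae
  filter_upwards [Lp.coeFn_star f, Lp.coeFn_star g] with x h1 h2
  rw [J_apply, J_apply, h1, h2, Pi.star_apply, Pi.star_apply]
  simp only [RCLike.inner_apply, map_mul, Complex.star_def]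

lemma J_mem_Hc [IsProbabilityMeasure μ] (h2 : MeasurePreserving (T 2) μ μ)
    (h3 : MeasurePreserving (T 3) μ μ) {v : Lp ℂ 2 μ} (hv : v ∈ Hc (UU h2) (UU h3)) :
    J μ v ∈ Hc (UU h2) (UU h3) := by
  have hspan : ∀ w ∈ Submodule.span ℂ {v | ∃ α β : ℂ, v ∈ Eg (UU h2) (UU h3) α β},
      J μ w ∈ Submodule.span ℂ {v | ∃ α β : ℂ, v ∈ Eg (UU h2) (UU h3) α β} := by
    intro w hw
    induction hw using Submodule.span_induction with
    | mem x hx =>
      obtain ⟨α, β, h⟩ := hx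
      rw [mem_Eg] at h
      apply Submodule.subset_span
      refine ⟨conj α, conj β, ?_⟩
      rw [mem_Eg]
      refine ⟨?_, ?_⟩
      · rw [← J_UU, h.1, LinearIsometry.map_smulₛₗ]
      · rw [← J_UU, h.2, LinearIsometry.map_smulₛₗ]
    | zero => rw [map_zero]; exact Submodule.zero_mem _
    | add x y _ _ hx hy => rw [map_add]; exact Submodule.add_mem _ hx hy
    | smul a x _ hx => rw [LinearIsometry.map_smulₛₗ]; exact Submodule.smul_mem _ _ hx
  have hv' : v ∈ closure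
      ((Submodule.span ℂ {v | ∃ α β : ℂ, v ∈ Eg (UU h2) (UU h3) α β} :
        Submodule ℂ (Lp ℂ 2 μ)) : Set (Lp ℂ 2 μ)) := hv
  exact map_mem_closure (J μ).continuous hv' hspan

lemma PP_J [IsProbabilityMeasure μ] (h2 : MeasurePreserving (T 2) μ μ)
    (h3 : MeasurePreserving (T 3) μ μ) (v : Lp ℂ 2 μ) :
    PP (UU h2) (UU h3) (J μ v) = J μ (PP (UU h2) (UU h3) v) := by
  unfold PP
  apply Submodule.eq_starProjection_of_mem_of_inner_eq_zero
  · apply J_mem_Hc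
    exact Submodule.starProjection_apply_mem _ _
  · intro w hw
    rw [← map_sub, ← J_J w, inner_J]
    have h4 : ⟪v - (Hc (UU h2) (UU h3)).starProjection v, J μ w⟫_ℂ = 0 :=
      Submodule.starProjection_inner_eq_zero _ _ (J_mem_Hc h2 h3 hw)
    rw [h4, map_zero]

lemma J_ev [IsFiniteMeasure μ] (m : ℤ) : J μ (ev μ m) = ev μ (-m) := by
  apply Lp.ext
  filter_upwards [Lp.coeFn_star (ev μ m), ContinuousMap.coeFn_toLp (p := 2) (𝕜 := ℂ) μ
    (fourier m : C(Tor, ℂ)), ContinuousMap.coeFn_toLp (p := 2) (𝕜 := ℂ) μ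
    (fourier (-m) : C(Tor, ℂ))] with x h1 h2 h3
  rw [J_apply, h1, Pi.star_apply]
  unfold ev
  rw [h2, h3, fourier_neg]
  rfl

theorem inC_conj [IsProbabilityMeasure μ] (h2 : MeasurePreserving (T 2) μ μ)
    (h3 : MeasurePreserving (T 3) μ μ) {f : Tor → ℂ} (hf : InC h2 h3 f) :
    InC h2 h3 (fun x => conj (f x)) := by
  obtain ⟨hf1, hf2⟩ := hf
  have h5 : MemLp (fun x => conj (f x)) 2 μ := hf1.star
  refine ⟨h5, ?_⟩
  have h6 : h5.toLp (fun x => conj (f x)) = J μ (hf1.toLp f) := by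
    apply Lp.ext
    filter_upwards [h5.coeFn_toLp, hf1.coeFn_toLp, Lp.coeFn_star (hf1.toLp f)] with x h7 h8 h9
    rw [h7, J_apply, h9, Pi.star_apply, h8]
    rfl
  rw [h6]
  exact J_mem_Hc h2 h3 hf2

theorem norm_PP_neg [IsProbabilityMeasure μ] (h2 : MeasurePreserving (T 2) μ μ)
    (h3 : MeasurePreserving (T 3) μ μ) (m : ℤ) :
    ‖PP (UU h2) (UU h3) (ev μ (-m))‖ = ‖PP (UU h2) (UU h3) (ev μ m)‖ := by
  rw [← J_ev, PP_J, LinearIsometry.norm_map]

end Helper78.FX
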